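import Pool.Agent.W2helper18.HE.Final
import Pool.Agent.Helper802.HolderExt.Compact

/-!
# Extension of Hölder maps into Euclidean space: a lower bound

For `1/2 < α < 1` the extension constant `c_α(n)` of `α`-Hölder maps into `n`-dimensional Euclidean
space is at least `q_α n^e` with `e = (α - 1/2) α / (4 α - 1 - 2 α²)`.
-/

noncomputable section

namespace Pool.Agent.W2helper18.LowerBoundOld

universe u

open Pool.Agent.W2helper18.HE

/-- The extension property with constant `c`: for every metric space `M`, every subset `E` of `M`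
and every map `φ` from `E` to `n`-dimensional Euclidean space with
`‖φ x - φ y‖ ≤ d(x, y)^α` on `E`, there is an extension `ψ` of `φ` to `M` with
`‖ψ x - ψ y‖ ≤ c d(x, y)^α` on `M`. -/
def ExtProp (α : ℝ) (n : ℕ) (c : ℝ) : Prop :=
  ∀ (M : Type u) [MetricSpace M] (E : Set M) (φ : E → EuclideanSpace ℝ (Fin n)),
    (∀ x y : E, ‖φ x - φ y‖ ≤ dist (x : M) (y : M) ^ α) →
      ∃ ψ : M → EuclideanSpace ℝ (Fin n), (∀ x : E, ψ (x : M) = φ x) ∧
        ∀ x y : M, ‖ψ x - ψ y‖ ≤ c * dist x y ^ α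

/-- The constant `c_α(n)`: the infimum of all constants with the extension property. -/
def extConst (α : ℝ) (n : ℕ) : ℝ := sInf {c : ℝ | 0 ≤ c ∧ ExtProp.{u} α n c}

theorem toExtX {α : ℝ} {n : ℕ} {c : ℝ} (h : ExtProp.{u} α n c) (X : Type) [MetricSpace X] :
    ExtX α n c X := by
  intro E φ hφ
  obtain ⟨ψ, h1, h2⟩ := h (ULift.{u} X) (ULift.down ⁻¹' E)
    (fun x => φ ⟨(x : ULift.{u} X).down, x.2⟩) (fun x y => hφ _ _)
  exact ⟨fun x => ψ ⟨x⟩, fun x => h1 ⟨⟨x⟩, x.2⟩, fun x y => h2 ⟨x⟩ ⟨y⟩⟩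

theorem nonempty {α : ℝ} (h12 : 1 / 2 < α) (h1 : α < 1) {n : ℕ} (hn : 1 ≤ n) :
    {c : ℝ | 0 ≤ c ∧ ExtProp.{u} α n c}.Nonempty := by
  refine ⟨max 0 (Helper802.HolderExt.AA (EuclideanSpace ℝ (Fin n)) α + 377), le_max_left _ _, ?_⟩
  intro M _ E φ hφ
  obtain ⟨ψ, ha, hb⟩ := Helper802.HolderExt.general_ext (V := EuclideanSpace ℝ (Fin n)) h12 h1
    (by rw [finrank_euclideanSpace_fin]; exact hn) hφ
  exact ⟨ψ, ha, fun x y => (hb x y).trans
    (mul_le_mul_of_nonneg_right (le_max_right _ _) (by positivity))⟩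

/-- For every `1/2 < α < 1` there is `q > 0` such that for all `n ≥ 1` every constant with the
extension property, and hence `c_α(n)`, is at least
`q n^((α - 1/2) α / (4 α - 1 - 2 α²))`. -/
theorem result : ∀ α : ℝ, 1 / 2 < α → α < 1 → ∃ q : ℝ, 0 < q ∧ ∀ n : ℕ, 1 ≤ n →
    (∀ c : ℝ, ExtProp.{u} α n c →
      q * (n : ℝ) ^ ((α - 1 / 2) * α / (4 * α - 1 - 2 * α ^ 2)) ≤ c) ∧
    q * (n : ℝ) ^ ((α - 1 / 2) * α / (4 * α - 1 - 2 * α ^ 2)) ≤ extConst.{u} α n := by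
  intro α h12 h1
  obtain ⟨q, hq, h⟩ := final h12 h1
  have key : ∀ n : ℕ, 1 ≤ n → ∀ c : ℝ, ExtProp.{u} α n c →
      q * (n : ℝ) ^ ((α - 1 / 2) * α / (4 * α - 1 - 2 * α ^ 2)) ≤ c :=
    fun n hn c hc => h n hn c fun X _ => toExtX hc X
  exact ⟨q, hq, fun n hn => ⟨key n hn, le_csInf (nonempty h12 h1 hn)
    fun c hc => key n hn c hc.2⟩⟩

end Pool.Agent.W2helper18.LowerBoundOld
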